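import Pool.Agent.Q1.CV.PrimeMain

set_option autoImplicit false

/-! # Primes `p` for which the values at `p, p + 1, …, p + J` lie in record prime gaps

Let `P₁, …, P_s` be generalised polynomials, that is, finite sums `P_k(t) = ∑ x ∈ F_k, a_k(x) t ^ x`
with real exponents `x` and real coefficients, whose leading exponents `c_k = max F_k` are positive
and not integers, and whose leading coefficients are positive; no difference `c_k - c_l`, `k ≠ l`, is an
integer. Let `J` be a natural number, `b` coprime to `d` and `ρ > 0`. There is `κ > 0` such that for all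
large `Z` there is a prime `p ≡ b (mod d)` in `(Z, (1 + ρ) Z]` such that no prime lies within `κ f(Z)`,
`f(Z) = log Z (log₂ Z)² log₄ Z / (log₃ Z)²`, of any of the `s (J + 1)` numbers `P_k(p + i)`,
`0 ≤ i ≤ J`.

For `J > c_k` the values `P_k(p), …, P_k(p + J)` are dependent (their differences of order greater
than `c_k` tend to zero). Proof (`Pool.Agent.Q1.CV`): up to bounded errors they are the linear forms
`∑ i ^ m w_(k, m)` in the integer parts `w_(k, m)` of `P_k⁽ᵐ⁾(p) / m!`, `m < c_k`, which are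
equidistributed for primes `p` (Vaughan's identity and van der Corput's method,
`Pool.Agent.Y961.JR.vm_all`); the covering criterion `Pool.Agent.Q1.CV.critL` for pairwise
independent linear forms does the rest.
-/

namespace Pool.Agent.Results.MP_45ff98_nt.ConsecutiveValuesAtPrimes

open Finset

/-- the size of the largest known prime gaps -/
noncomputable def f (M : ℝ) : ℝ :=
  Real.log M * (Real.log (Real.log M)) ^ 2 * Real.log (Real.log (Real.log (Real.log M))) /
    (Real.log (Real.log (Real.log M))) ^ 2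

/-- no prime is at distance at most `d` from `x` -/
def PrimeFreeAround (x d : ℝ) : Prop := ∀ q : ℕ, q.Prime → d < |(q : ℝ) - x|

theorem result (s : ℕ) (hs : 1 ≤ s) (F : Fin s → Finset ℝ) (a : Fin s → ℝ → ℝ) (c : Fin s → ℝ)
    (hF : ∀ k, c k ∈ F k ∧ ∀ x ∈ F k, x ≤ c k) (ha : ∀ k, 0 < a k (c k)) (hc : ∀ k, 0 < c k)
    (hc' : ∀ k, ∀ m : ℕ, c k ≠ m) (hd : ∀ k l, k ≠ l → ∀ z : ℤ, c k - c l ≠ z) (J : ℕ)
    (d b : ℕ) (hd0 : 0 < d) (hb : b.Coprime d) (ρ : ℝ) (hρ : 0 < ρ) :
    ∃ κ : ℝ, 0 < κ ∧ ∃ Z₀ : ℝ, ∀ Z : ℝ, Z₀ ≤ Z →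
      ∃ p : ℕ, p.Prime ∧ p ≡ b [MOD d] ∧ Z < p ∧ (p : ℝ) ≤ (1 + ρ) * Z ∧
        ∀ k, ∀ i : ℕ, i ≤ J →
          PrimeFreeAround (∑ x ∈ F k, a k x * ((p : ℝ) + i) ^ x) (κ * f Z) :=
  Pool.Agent.Q1.CV.prime_consecutive hs F a c (fun k => (hF k).1) (fun k => (hF k).2) ha hc hc' hd J
    d b hd0 hb ρ hρ

end Pool.Agent.Results.MP_45ff98_nt.ConsecutiveValuesAtPrimes
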