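import Pool.Agent.Q120.MF.Exists
import Pool.Agent.Q166.GC.L

/-!
# Primes in windows of length `(log x) ^ 2` along geometric progressions, in Cramér's model

The question asks whether `(x, x + (log x) ^ 2)` contains a prime for every real `x > 8`. In Cramér's random
model of the primes let `R_H(x)` be the number of elements in `(x, x + H]` divided by `H / log x`. We consider
the points `x = b ^ n` for all real `b > 1` at once, outside ONE set of probability zero, and all levels
`0 ≤ w < 1 < u` (`w = 0`: empty windows). With `f(u) = 1 - u + u log u`, `f(0) = 1`: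

1. If `k f(u) > 1`, then `R_H(x) < u` for all large real `x` and all `k (log x) ^ 2 ≤ H ≤ x`; in the same way
   `R_H(x) > w` if `k f(w) > 1`.
2. For `H = k (log x) ^ 2` the bases `b` with `R_H(b ^ n) ≥ u` infinitely often form a set of Hausdorff
   dimension `1 - k f(u)` in every interval (dimension `0` if this is negative); the same for `R_H(b ^ n) ≤ w`.
3. In the sense of Baire category almost every base belongs to all these sets with `k f(u) < 1`, `k f(w) < 1`;
   also `(x, x + (log x) ^ 2]` is empty for infinitely many `x = b ^ n`.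
4. In the sense of Lebesgue measure, for almost every base the constants are the same, but the scale is
   `log x log log x` instead of `(log x) ^ 2`.
-/

set_option autoImplicit false

namespace Pool.Agent.Results.MP_45ff98_nt.GeometricProgressions

open MeasureTheory Filter Topology Pool.Agent.Q120.MF Pool.Agent.Q166.GC

/-- **Windows above the powers of all real bases, in Cramér's model.** -/
theorem result :
    (∃ (Ω : Type) (_ : MeasurableSpace Ω) (μ : Measure Ω) (A : Ω → Set ℕ), IsProbabilityMeasure μ ∧ IsCramer μ A) ∧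
    ∀ (Ω : Type) [MeasurableSpace Ω] (μ : Measure Ω) [IsProbabilityMeasure μ] (A : Ω → Set ℕ), IsCramer μ A →
      ∀ᵐ ω ∂μ,
        -- (1) all large real numbers, all window lengths
        (∀ k u : ℝ, 0 < k → 1 < u → 1 < k * f u →
          ∀ᶠ x : ℝ in atTop, ∀ H : ℝ, k * Real.log x ^ 2 ≤ H → H ≤ x → R (A ω) H x < u) ∧
        (∀ k w : ℝ, 0 < k → 0 ≤ w → w < 1 → 1 < k * f w →
          ∀ᶠ x : ℝ in atTop, ∀ H : ℝ, k * Real.log x ^ 2 ≤ H → H ≤ x → w < R (A ω) H x) ∧
        -- (2) the dimensions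
        (∀ k u p q : ℝ, 0 < k → 1 < u → 1 < q → p < q →
          dimH (Up (A ω) (fun x => k * Real.log x ^ 2) u ∩ Set.Ioo p q) = ENNReal.ofReal (1 - k * f u)) ∧
        (∀ k w p q : ℝ, 0 < k → 0 ≤ w → w < 1 → 1 < q → p < q →
          dimH (Dn (A ω) (fun x => k * Real.log x ^ 2) w ∩ Set.Ioo p q) = ENNReal.ofReal (1 - k * f w)) ∧
        -- (3) generic bases
        (∀ᶠ b : ℝ in residual ℝ, 1 < b → b ∈ Dn (A ω) (fun x => Real.log x ^ 2) 0 ∧ ∀ k : ℝ, 0 < k →
          (∀ u : ℝ, 1 < u → k * f u < 1 → b ∈ Up (A ω) (fun x => k * Real.log x ^ 2) u) ∧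
          (∀ w : ℝ, 0 ≤ w → w < 1 → k * f w < 1 → b ∈ Dn (A ω) (fun x => k * Real.log x ^ 2) w)) ∧
        -- (4) almost every base
        (∀ᵐ b : ℝ, 1 < b → b ∈ Dn (A ω) LL 0 ∧ ∀ c : ℝ, 0 < c →
          (∀ u : ℝ, 1 < u →
            (1 < c * f u → ∀ᶠ n : ℕ in atTop, ∀ H : ℝ, c * LL (b ^ n) ≤ H → H ≤ b ^ n → R (A ω) H (b ^ n) < u) ∧
            (c * f u < 1 → b ∈ Up (A ω) (fun x => c * LL x) u)) ∧
          (∀ w : ℝ, 0 ≤ w → w < 1 →
            (1 < c * f w → ∀ᶠ n : ℕ in atTop, ∀ H : ℝ, c * LL (b ^ n) ≤ H → H ≤ b ^ n → w < R (A ω) H (b ^ n)) ∧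
            (c * f w < 1 → b ∈ Dn (A ω) (fun x => c * LL x) w))) := by
  refine ⟨⟨_, _, cramerMeasure, cramerSet, inferInstance, isCramer⟩, ?_⟩
  intro Ω _ μ _ A hA
  filter_upwards [ae_all hA, ae_good hA, ae_base hA, Pool.Agent.Q166.EB.ae_good hA, Pool.Agent.Q166.EB.ae_gaps hA,
    Pool.Agent.Q166.EB.ae_bases hA] with ω h1 h2 h3 h4 h5 h6
  refine ⟨fun k u hk hu h => h1.evU hk hu h, fun k w hk hw0 hw h => h1.evL0 hk hw0 hw h, ?_, ?_, ?_, ?_⟩
  · intro k u p q hk hu hq hpq
    rw [Up_eq]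
    exact h2.dimHi hk hu hq hpq
  · intro k w p q hk hw0 hw hq hpq
    rcases hw0.eq_or_lt with rfl | hw0
    · exact dim_zero h4 hk hq hpq
    · rw [Dn_eq]
      exact h2.dimLo hk hw0 hw hq hpq
  · filter_upwards [h2.generic, generic_zero h5] with b e1 e2 hb
    refine ⟨(e2 hb).1, fun k hk => ⟨fun u hu h => ?_, fun w hw0 hw h => ?_⟩⟩
    · rw [Up_eq]
      exact (e1 hb k hk).1 u hu h
    · rcases hw0.eq_or_lt with rfl | hw0
      · rw [f_zero, mul_one] at h
        exact (e2 hb).2 k h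
      · rw [Dn_eq]
        exact (e1 hb k hk).2 w hw0 hw h
  · filter_upwards [h3, base_zero h6] with b e1 e2 hb
    refine ⟨(e2 hb).1, fun c hc => ⟨fun u hu => ⟨fun h => (e1 hb).evU hb hc hu h, fun h => ⟨hb, (e1 hb).frU hb hc hu h⟩⟩,
      fun w hw0 hw => ⟨fun h => (e1 hb).evL0 hb hc hw0 hw h, fun h => ?_⟩⟩⟩
    rcases hw0.eq_or_lt with rfl | hw0
    · rw [f_zero, mul_one] at h
      exact (e2 hb).2 c h
    · exact ⟨hb, (e1 hb).frL hb hc hw0 hw h⟩

end Pool.Agent.Results.MP_45ff98_nt.GeometricProgressions
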