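import Pool.Agent.Q130.PV.Poly

set_option autoImplicit false

/-! # Prime gaps of record length around all values of polynomial maps modulo a prime

Let `f(N) = log N (log₂ N)² log₄ N / (log₃ N)²`, the order of the largest known prime gaps, and let
`r ≥ 1`, `m`, `D ≥ 1`, `0 < ε ≤ 1`. There is `κ > 0` such that for all large primes `p`, all
polynomials `F 1, ..., F r` in `m` variables over the field with `p` elements, of degree at most
`D`, for which `1, F 1, ..., F r` are linearly independent, and every box `J 1 × ... × J r` in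
`[0, p)^r` with at least `p ^ (r - 2 ^ (-D) + ε)` points: for at least `p ^ (m - r - ε) |J|` points
`x` the least residue of every `F j x` lies in `J j`, and no prime is within `κ f(p)` of it.

For instance the residues of `x, x², ..., x^r`, all entries of a matrix, of its powers and all its
minors, or `x`, `y` and `x y`, are simultaneously in prime gaps of record length. -/

namespace Pool.Agent.Results.MP_45ff98_nt.PolynomialMapsModP

open Finset

/-- the order of the largest known prime gaps -/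
noncomputable def f (N : ℝ) : ℝ :=
  Real.log N * (Real.log (Real.log N)) ^ 2 * Real.log (Real.log (Real.log (Real.log N))) /
    (Real.log (Real.log (Real.log N))) ^ 2

/-- no prime is within `D` of `v` -/
def Far (D : ℝ) (v : ℕ) : Prop := ∀ q : ℕ, q.Prime → D < |(q : ℝ) - v|

open scoped Classical in
theorem result (r m D : ℕ) (hr : 1 ≤ r) (hD : 1 ≤ D) (ε : ℝ) (h0 : 0 < ε) (h1 : ε ≤ 1) :
    ∃ κ : ℝ, 0 < κ ∧ ∃ P₀ : ℕ, ∀ p : ℕ, P₀ ≤ p → ∀ [Fact p.Prime],
      ∀ F : Fin r → MvPolynomial (Fin m) (ZMod p), (∀ j, (F j).totalDegree ≤ D) →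
      (∀ (c : Fin r → ZMod p) (a : ZMod p),
        ∑ j, MvPolynomial.C (c j) * F j = MvPolynomial.C a → c = 0) →
      ∀ u L : Fin r → ℕ, (∀ j, u j + L j ≤ p) →
      (p : ℝ) ^ ((r : ℝ) - (1 / 2 : ℝ) ^ D + ε) ≤ ∏ j, (L j : ℝ) →
      (p : ℝ) ^ ((m : ℝ) - r - ε) * ∏ j, (L j : ℝ) ≤
        ((univ.filter (fun x : Fin m → ZMod p => ∀ j,
          (MvPolynomial.eval x (F j)).val ∈ Ico (u j) (u j + L j) ∧
          Far (κ * f p) (MvPolynomial.eval x (F j)).val)).card : ℝ) := by
  obtain ⟨κ, hκ, hp⟩ := Pool.Agent.Q130.PV.poly_main r m D hr hD ε h0 h1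
  obtain ⟨P₀, hP₀⟩ := Filter.eventually_atTop.1 hp
  refine ⟨κ, hκ, P₀, fun p hp _ F hF hlin u L hu hL => (hP₀ p hp F hF hlin u L hu hL).trans ?_⟩
  have : (univ.filter (fun x : Fin m → ZMod p => ∀ j,
          (u j ≤ (MvPolynomial.eval x (F j)).val ∧ (MvPolynomial.eval x (F j)).val < u j + L j) ∧
          ∀ q : ℕ, q.Prime → κ * Pool.Agent.W147.PS.ff p <
            |(q : ℝ) - (MvPolynomial.eval x (F j)).val|)) ⊆
      (univ.filter (fun x : Fin m → ZMod p => ∀ j,
          (MvPolynomial.eval x (F j)).val ∈ Ico (u j) (u j + L j) ∧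
          Far (κ * f p) (MvPolynomial.eval x (F j)).val)) := by
    intro x hx
    rw [mem_filter] at hx ⊢
    refine ⟨mem_univ _, fun j => ?_⟩
    rw [mem_Ico]
    exact hx.2 j
  exact_mod_cast card_le_card this

end Pool.Agent.Results.MP_45ff98_nt.PolynomialMapsModP
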