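import Pool.Agent.Q120.NC.Final
import Pool.Agent.Q120.MF.Exists

/-!
# The exact number of failures of Schinzel's intervals in Cramér's model

The question asks whether `(x, x + log^2 x)` contains a prime for all real `x > 8`. If `(x, x + log^2 x)` contains no
element of a set `S`, then neither does `(a, a + log^2 a)`, where `a` is the last element `≤ x`; so the question is
about the elements `a` whose next element is at distance at least `log^2 a`. In Cramér's model we determine the number
of these up to `N`: it is almost surely asymptotic to `e^{-1/2} log log N`. More generally we determine the number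
of gaps which exceed `log^2 a + c log a log log log a`, for every real `c`, and, for an arbitrary function `h`, the
number of gaps which exceed `h`.
-/

set_option autoImplicit false

namespace Pool.Agent.Results.MP_45ff98_nt.SecondOrderLaw

open Finset MeasureTheory Filter Pool.Agent.Q120.ET Pool.Agent.Q120.MF Pool.Agent.Q120.PT Pool.Agent.Q120.NC

/-- The elements `a` of `S` with `3 ≤ a ≤ N` such that no element of `S` lies in `(a, a + H a)`. -/
def Big (S : Set ℕ) (H : ℕ → ℝ) (N : ℕ) : Set ℕ :=
  {a | a ∈ S ∧ 3 ≤ a ∧ a ≤ N ∧ ¬ ∃ b ∈ S, a < b ∧ (b : ℝ) < a + H a}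

/-- The probability that `n` is an element and that none of the `k` next integers is. -/
noncomputable def prob (n k : ℕ) : ℝ := 1 / Real.log n * ∏ m ∈ Finset.Ioc n (n + k), (1 - 1 / Real.log m)

theorem big_eq (S : Set ℕ) (c : ℝ) (N : ℕ) :
    Big S (fun a => Real.log a ^ 2 + c * (Real.log a * Real.log (Real.log (Real.log a)))) N = LongGaps S c N := by
  unfold Big LongGaps len
  ext a
  simp only [Set.mem_ofPred_eq, not_exists, not_and, not_lt]

theorem gapP_eq (h : ℕ → ℕ) : gapP h = fun n => if 3 ≤ n then prob n (h n) else 0 := by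
  funext n
  unfold gapP prob pFree
  rfl

theorem result :
    (∃ (Ω : Type) (_ : MeasurableSpace Ω) (μ : Measure Ω) (A : Ω → Set ℕ), IsProbabilityMeasure μ ∧ IsCramer μ A) ∧
    ∀ (Ω : Type) [MeasurableSpace Ω] (μ : Measure Ω) [IsProbabilityMeasure μ] (A : Ω → Set ℕ), IsCramer μ A →
      -- any function
      (∀ h : ℕ → ℕ,
        (¬ Summable (fun n => if 3 ≤ n then prob n (h n) else 0) →
          ∀ᵐ ω ∂μ, Tendsto (fun N : ℕ => ((Big (A ω) (fun a => (h a : ℝ) + 1) N).ncard : ℝ) /
            ∑ n ∈ Finset.Icc 3 N, prob n (h n)) atTop (nhds 1)) ∧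
        (Summable (fun n => if 3 ≤ n then prob n (h n) else 0) →
          ∀ᵐ ω ∂μ, ∃ N, ∀ M, Big (A ω) (fun a => (h a : ℝ) + 1) M ⊆ Big (A ω) (fun a => (h a : ℝ) + 1) N)) ∧
      -- the function of the question
      (∀ᵐ ω ∂μ, Tendsto (fun N : ℕ => ((Big (A ω) (fun a => Real.log a ^ 2) N).ncard : ℝ) /
        Real.log (Real.log N)) atTop (nhds (Real.exp (-(1 / 2))))) ∧
      -- second order
      (∀ c : ℝ, c < 1 → ∀ᵐ ω ∂μ, Tendsto (fun N : ℕ =>
        ((Big (A ω) (fun a => Real.log a ^ 2 + c * (Real.log a * Real.log (Real.log (Real.log a)))) N).ncard : ℝ) /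
          (Real.log (Real.log N) ^ (1 - c) / (1 - c))) atTop (nhds (Real.exp (-(1 / 2))))) ∧
      (∀ᵐ ω ∂μ, Tendsto (fun N : ℕ =>
        ((Big (A ω) (fun a => Real.log a ^ 2 + Real.log a * Real.log (Real.log (Real.log a))) N).ncard : ℝ) /
          Real.log (Real.log (Real.log N))) atTop (nhds (Real.exp (-(1 / 2))))) ∧
      (∀ c : ℝ, 1 < c → ∀ᵐ ω ∂μ, ∃ N0 : ℕ, ∀ a ∈ A ω, N0 ≤ a → ∃ b ∈ A ω, a < b ∧
        (b : ℝ) < a + (Real.log a ^ 2 + c * (Real.log a * Real.log (Real.log (Real.log a))))) := by
  refine ⟨⟨_, _, cramerMeasure, cramerSet, inferInstance, isCramer⟩, ?_⟩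
  intro Ω _ μ _ A hA
  have hcount : ∀ (h : ℕ → ℕ) (N : ℕ) (ω : Ω),
      ((Big (A ω) (fun a => (h a : ℝ) + 1) N).ncard : ℝ) = cnt (GapEv A h) (N + 1) ω := by
    classical
    intro h N ω
    have h1 : Big (A ω) (fun a => (h a : ℝ) + 1) N =
        (((range (N + 1)).filter (fun a => ω ∈ GapEv A h a) : Finset ℕ) : Set ℕ) := by
      ext a
      rw [mem_coe, mem_filter, mem_range]
      have h2 : (¬ ∃ b ∈ A ω, a < b ∧ (b : ℝ) < a + ((h a : ℝ) + 1)) ↔ ∀ m ∈ A ω, a < m → a + h a < m := by
        constructor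
        · intro h3 m hm ham
          by_contra hcon
          apply h3
          refine ⟨m, hm, ham, ?_⟩
          have h4 : m < a + h a + 1 := by omega
          have h5 : (m : ℝ) < a + h a + 1 := by exact_mod_cast h4
          linarith
        · rintro h3 ⟨b, hb, hab, h4⟩
          have h5 := h3 b hb hab
          have h6 : (a : ℝ) + h a + 1 ≤ b := by exact_mod_cast h5
          linarith
      constructor
      · rintro ⟨h3, h4, h5, h6⟩
        exact ⟨by omega, h4, h3, h2.1 h6⟩
      · rintro ⟨h3, h4, h5, h6⟩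
        exact ⟨h5, h4, by omega, h2.2 h6⟩
    rw [h1, Set.ncard_coe_finset]
    unfold cnt
    rw [card_filter]
    push_cast
    refine sum_congr rfl (fun a _ => ?_)
    by_cases h : ω ∈ GapEv A h a
    · rw [if_pos h, Set.indicator_of_mem h]
    · rw [if_neg h, Set.indicator_of_notMem h]
  refine ⟨fun h => ⟨fun hS => ?_, fun hS => ?_⟩, ?_, fun c hc => ?_, ?_, fun c hc => ?_⟩
  · rw [← gapP_eq] at hS
    filter_upwards [gap_law hA h hS] with ω hω
    refine (hω.comp (tendsto_add_atTop_nat 1)).congr (fun N => ?_)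
    simp only [Function.comp_apply]
    rw [hcount]
    congr 1
    rw [gapP_eq, ← sum_filter]
    refine sum_congr ?_ (fun _ _ => rfl)
    ext a
    rw [mem_filter, mem_range, Finset.mem_Icc]
    omega
  · rw [← gapP_eq] at hS
    filter_upwards [gap_fin hA h hS] with ω hω
    obtain ⟨N, hN⟩ := eventually_atTop.1 hω
    refine ⟨N, fun M a ha => ?_⟩
    obtain ⟨h1, h2, h3, h4⟩ := ha
    refine ⟨h1, h2, ?_, h4⟩
    by_contra hcon
    apply hN a (by omega)
    refine ⟨h2, h1, fun m hm ham => ?_⟩
    by_contra hcon2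
    apply h4
    refine ⟨m, hm, ham, ?_⟩
    have h5 : m < a + h a + 1 := by omega
    have h6 : (m : ℝ) < a + h a + 1 := by exact_mod_cast h5
    show (m : ℝ) < a + ((h a : ℝ) + 1)
    linarith
  · filter_upwards [count_law hA (show (0 : ℝ) ≤ 1 by norm_num)] with ω hω
    refine hω.congr (fun N => ?_)
    congr 1
    · rw [← big_eq]
      have : (fun a : ℕ => Real.log a ^ 2 + 0 * (Real.log a * Real.log (Real.log (Real.log a)))) =
          fun a : ℕ => Real.log (a : ℝ) ^ 2 := by
        funext a
        ring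
      rw [this]
    · unfold prim
      rw [if_neg (by norm_num), sub_zero, Real.rpow_one, div_one]
  · filter_upwards [count_law hA hc.le] with ω hω
    refine hω.congr (fun N => ?_)
    rw [big_eq]
    congr 1
    unfold prim
    rw [if_neg hc.ne]
  · filter_upwards [count_law hA (le_refl (1 : ℝ))] with ω hω
    refine hω.congr (fun N => ?_)
    congr 1
    · rw [← big_eq]
      simp only [one_mul]
    · unfold prim
      rw [if_pos rfl]
  · filter_upwards [fin_law hA hc] with ω hω
    obtain ⟨N, hN⟩ := hω.bddAbove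
    refine ⟨max (N + 1) 3, fun a ha haN => ?_⟩
    by_contra hcon
    push Not at hcon
    have h1 := hN (show a ∈ _ from ⟨ha, (le_max_right _ _).trans haN, fun b hb hab => hcon b hb hab⟩)
    have h2 := (le_max_left (N + 1) 3).trans haN
    omega

end Pool.Agent.Results.MP_45ff98_nt.SecondOrderLaw
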